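import Pool.Agent.H732R3.BigR
import Pool.Agent.H732R3.QuarterB

/-!
# Every tuple of shifts is at a bounded distance from one with `x ^ (1 - o(1))` prime values

For every `r = k + 1 ≥ 1` there is `C` such that for every vector `v` of `r` integers there are distinct
integers `a_i` with `|a_i - v_i| ≤ C` such that for every `η > 0` there are arbitrarily large `x` with
`π(x; a_1, ..., a_r) ≥ x ^ (1 - η)`.

A quantitative version of the coloured Maynard-Tao theorem of the starting files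
(`Pool.Agent.H362R2.CM`) is combined with the density Hales-Jewett theorem (`Pool.Agent.Helper903.DHJ`).
-/

namespace Pool.Agent.Results.MP_e87c7d_nt.BoundedPerturbation

open Filter

theorem result (k : ℕ) : ∃ C : ℕ, ∀ v : Fin (k + 1) → ℤ, ∃ a : Fin (k + 1) → ℤ,
    Function.Injective a ∧ (∀ i, |a i - v i| ≤ C) ∧
    ∀ η : ℝ, 0 < η → ∃ᶠ x : ℝ in atTop, x ^ (1 - η) ≤
      ({n : ℕ | 1 ≤ n ∧ (n : ℝ) ≤ x ∧ ∀ i, ∃ p : ℕ, p.Prime ∧ (p : ℤ) = n + a i}.ncard : ℝ) := by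
  obtain ⟨C, hC⟩ := Pool.Agent.H732R3.BigQ.tuples Pool.Agent.H732R3.BigQ.quarterB k
  refine ⟨C, fun v => ?_⟩
  obtain ⟨a, h1, h2, h3⟩ := hC v
  refine ⟨a, h1, h2, fun η hη => (h3 η hη).mono fun x hx => hx.trans (le_of_eq ?_)⟩
  congr 2
  ext n
  exact ⟨fun h => ⟨h.1.1, h.2, h.1.2⟩, fun h => ⟨⟨h.1, h.2.2⟩, h.2.1⟩⟩

end Pool.Agent.Results.MP_e87c7d_nt.BoundedPerturbation
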