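import Mathlib
import Pool.Agent.H358R5.MainC

/-! For every `m ≥ 2`: every admissible set of at least `exp (4 m + 0.58)` shifts contains a pattern of `m + 1`
shifts realised by `m + 1` consecutive primes at least `x^(1-ε)` times up to `x`, for arbitrarily large `x`.
The proof is the development `Pool.Agent.H358R5` of the earlier rounds (never handed in for general `m`). -/

theorem Pool.Agent.Results.MP_e87c7d_nt.EveryLengthOfPatterns.result :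
    ∀ m : ℕ, 2 ≤ m → ∀ H : Finset ℤ, Real.exp (4 * m + 29 / 50) ≤ H.card →
      (∀ p : ℕ, p.Prime → ∃ r : ℤ, ∀ h ∈ H, ¬ (p : ℤ) ∣ r + h) →
      ∃ S : Finset ℤ, S ⊆ H ∧ S.card = m + 1 ∧ ∀ ε : ℝ, 0 < ε → ∃ᶠ x : ℝ in Filter.atTop,
        x ^ (1 - ε) ≤ (Set.ncard {n : ℕ | (n : ℝ) ≤ x ∧ (∀ s ∈ S, ∃ p : ℕ, p.Prime ∧ (p : ℤ) = n + s) ∧
          ∀ p : ℕ, p.Prime → (∃ s ∈ S, ∃ t ∈ S, (n : ℤ) + s ≤ p ∧ (p : ℤ) ≤ n + t) →
            ∃ s ∈ S, (p : ℤ) = n + s} : ℝ) := by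
  intro m hm H hK hadm
  refine Pool.Agent.H358R5.pattern_many m hm H ?_ hadm
  have hpos : (0 : ℝ) < (H.card : ℝ) := lt_of_lt_of_le (Real.exp_pos _) hK
  exact (Real.le_log_iff_exp_le hpos).2 hK
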