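import Mathlib
import Pool.Agent.H358R5.Gaps

/-! `H_3 ≤ 4209616`: four consecutive primes in an interval of length 4209616, at least `x^(1-ε)` times up to
`x` for all large `x`.  The proof is the development `Pool.Agent.H358R5` of the earlier rounds (never handed in
for four primes). -/

theorem Pool.Agent.Results.MP_e87c7d_nt.FourPrimesInBoundedGaps.result :
    ∀ ε : ℝ, 0 < ε → ∀ᶠ x : ℝ in Filter.atTop,
      x ^ (1 - ε) ≤ (Set.ncard {k : ℕ | (Nat.nth Nat.Prime k : ℝ) ≤ x ∧
        Nat.nth Nat.Prime (k + 3) ≤ Nat.nth Nat.Prime k + 4209616} : ℝ) :=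
  fun ε hε => Pool.Agent.H358R5.gaps4 ε hε
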